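import Pool.Agent.H242.LD.Stm

set_option autoImplicit false

/-! LD-TREE: nested intervals: a tree of nodes gives a coding map. -/

namespace Pool.Agent.H377.LD

open Real Set Metric Filter Topology
open Pool.Agent.H242.TM Pool.Agent.H242.LD

/-- the sequence of states -/
def nd {X : ℕ → Type} {N : ℕ} (x0 : X 0) (st : ∀ n, X n → Fin N → X (n + 1)) (σ : ℕ → Fin N) :
    ∀ n, X n
  | 0 => x0
  | n + 1 => st n (nd x0 st σ n) (σ n)

theorem nd_congr {X : ℕ → Type} {N : ℕ} (x0 : X 0) (st : ∀ n, X n → Fin N → X (n + 1))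
    (σ τ : ℕ → Fin N) (n : ℕ) (h : ∀ i < n, σ i = τ i) : nd x0 st σ n = nd x0 st τ n := by
  induction n with
  | zero => rfl
  | succ n ih =>
    simp only [nd]
    rw [ih fun i hi => h i (hi.trans (Nat.lt_succ_self n)), h n (Nat.lt_succ_self n)]

theorem arcs_apart {ω x y : ℝ} {k l : ℤ} (hkl : k < l) (hx : x ∈ Icc (lo ω k) (hi ω k))
    (hy : y ∈ Icc (lo ω l) (hi ω l)) : 2 * ω ≤ y - x := by
  have h1 : (k : ℝ) + 1 ≤ l := by exact_mod_cast hkl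
  have h2 := hx.2
  have h3 := hy.1
  unfold hi at h2
  unfold lo at h3
  linarith

theorem arcs_apart' {ω x y : ℝ} {k l : ℤ} (hkl : k ≠ l) (hx : x ∈ Icc (lo ω k) (hi ω k))
    (hy : y ∈ Icc (lo ω l) (hi ω l)) : 2 * ω ≤ |x - y| := by
  rcases lt_or_gt_of_ne hkl with h | h
  · rw [abs_sub_comm]
    exact (arcs_apart h hx hy).trans (le_abs_self _)
  · exact (arcs_apart h hy hx).trans (le_abs_self _)

theorem ld_TREE : S_TREE := by
  intro g N P ω s t k hω hω' hcross hchild h0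
  choose f hf s' t' hs ht hP using hchild
  let X : ℕ → Type := fun n => {x : ℝ × ℝ × ℤ // P n x.1 x.2.1 x.2.2}
  let x0 : X 0 := ⟨(s, t, k), h0⟩
  let st : ∀ n, X n → Fin N → X (n + 1) := fun n x i =>
    ⟨(s' n x.1.1 x.1.2.1 x.1.2.2 x.2 i, t' n x.1.1 x.1.2.1 x.1.2.2 x.2 i,
      f n x.1.1 x.1.2.1 x.1.2.2 x.2 i), hP n x.1.1 x.1.2.1 x.1.2.2 x.2 i⟩
  let S : (ℕ → Fin N) → ℕ → ℝ := fun σ n => (nd x0 st σ n).1.1
  let T : (ℕ → Fin N) → ℕ → ℝ := fun σ n => (nd x0 st σ n).1.2.1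
  let K : (ℕ → Fin N) → ℕ → ℤ := fun σ n => (nd x0 st σ n).1.2.2
  have hPn : ∀ σ n, P n (S σ n) (T σ n) (K σ n) := fun σ n => (nd x0 st σ n).2
  have hS : ∀ σ, Monotone (S σ) := fun σ =>
    monotone_nat_of_le_succ fun n => hs n (S σ n) (T σ n) (K σ n) (hPn σ n) (σ n)
  have hT : ∀ σ, Antitone (T σ) := fun σ =>
    antitone_nat_of_succ_le fun n => ht n (S σ n) (T σ n) (K σ n) (hPn σ n) (σ n)
  have hC : ∀ σ n, Cross (g n) (S σ n) (T σ n) (lo ω (K σ n)) (hi ω (K σ n)) := fun σ n =>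
    hcross n _ _ _ (hPn σ n)
  have hST : ∀ σ m n, S σ m ≤ T σ n := fun σ m n =>
    ((hS σ (le_max_left m n)).trans (hC σ (max m n)).1).trans (hT σ (le_max_right m n))
  have hbdd : ∀ σ, BddAbove (range (S σ)) := fun σ => ⟨T σ 0, by
    rintro _ ⟨m, rfl⟩
    exact hST σ m 0⟩
  have hmem : ∀ σ n, (⨆ m, S σ m) ∈ Icc (S σ n) (T σ n) := fun σ n =>
    ⟨le_ciSup (hbdd σ) n, ciSup_le fun m => hST σ m n⟩
  have hval : ∀ σ n, g n (⨆ m, S σ m) ∈ Icc (lo ω (K σ n)) (hi ω (K σ n)) := fun σ n =>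
    (hC σ n).2.2 _ (hmem σ n)
  refine ⟨fun σ => ⨆ m, S σ m, fun σ => hmem σ 0, fun σ n => ⟨K σ n, hval σ n⟩, ?_⟩
  intro σ τ n hn hne
  refine arcs_apart' (ω := ω) (k := K σ (n + 1)) (l := K τ (n + 1)) ?_ (hval σ (n + 1))
    (hval τ (n + 1))
  have e1 : nd x0 st σ n = nd x0 st τ n := nd_congr x0 st σ τ n hn
  have e2 : nd x0 st σ (n + 1) = st n (nd x0 st τ n) (σ n) := by
    rw [← e1]; rfl
  intro hK
  have hK' : (nd x0 st σ (n + 1)).1.2.2 = (nd x0 st τ (n + 1)).1.2.2 := hK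
  rw [e2] at hK'
  exact hne (hf n _ _ _ (nd x0 st τ n).2 hK')

end Pool.Agent.H377.LD
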